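import Pool.Agent.W_a617e8_h51.Fin

set_option autoImplicit false

/-!
MP_a617e8_nt: the density `lam s` of the largest subsets of `{1, .., n}` without `x, 2x, .., s x`
exists for all `s ≥ 2`, and `s log s (1 - lam s)` converges as `s → ∞`.  The limit is `c (1 + V)`,
where `c = lim log s ∏_{p ≤ s} (1 - 1/p)` and `V` is the value of an explicit linear programme
(`Feas`, which does not involve `s`).

The linear programme.  A pattern is a family `F` of nonempty subsets of `{1, .., m}` with positions
`c_1, .., c_m ∈ [δ, 1]` such that all `S ∈ F` have the same sum `h` of positions, and the sum of all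
positions is at most `1 + h` (`Good`).  A measure `α` on patterns is feasible if, for every `k ≥ 1`
and all increasing disjoint windows `[a_1, b_1), .., [a_k, b_k)` in `(δ, 1)` with `∑ b_i < Y`, the
total measure of the pairs (pattern, `S ∈ F`) such that `S` has `k` elements, one in each window,
is `∏ log (b_i / a_i)`.  `V` is the infimum of the masses of feasible measures, in the limit
`δ → 0`, `Y → ∞`.
-/

noncomputable section

open MeasureTheory Filter Topology Pool.Agent.W_a617e8_h51

namespace Pool.Agent.Results.MP_a617e8_nt.Conv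

/-- The maximal density `lam s` exists, and `s log s (1 - lam s)` converges to `c (1 + V)`. -/
theorem result : ∃ lam : ℕ → ℝ,
    (∀ s : ℕ, 2 ≤ s → Tendsto (fun n : ℕ => (pmax s n : ℝ) / n) atTop (𝓝 (lam s))) ∧
    ∃ c V : ℝ, 0 < c ∧ 0 ≤ V ∧
      Tendsto (fun s : ℕ => Real.log s * dl s) atTop (𝓝 c) ∧
      Tendsto (fun s : ℕ => s * Real.log s * (1 - lam s)) atTop (𝓝 (c * (1 + V))) ∧
      (∀ δ Y Γ : ℝ, 0 < δ → δ < 1 → 1 ≤ Y → V < Γ →
        ∃ α : (m : ℕ) → Finset (Finset (Fin m)) → Measure (Fin m → ℝ), Feas δ Y α Γ) ∧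
      (∀ Γ : ℝ, 0 ≤ Γ → Γ < V → ∃ δ Y : ℝ, 0 < δ ∧ δ < 1 ∧ 1 ≤ Y ∧
        ∀ α : (m : ℕ) → Finset (Finset (Fin m)) → Measure (Fin m → ℝ), ¬ Feas δ Y α Γ) := main

end Pool.Agent.Results.MP_a617e8_nt.Conv
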